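import Mathlib

set_option autoImplicit false

/-!
# The symplectic groups have the rank property

For every field `K` and every `m ≥ 2` the symplectic group `Sp(2m, K) ≤ GL(2m, K)` has the rank
property (for every singular matrix `a` there is `g` in the group with `rank (a g a) = rank a`),
and it does not contain `SL(2m, K)`.
-/

namespace Pool.Agent.Results.MP_6598fd_al.Symplectic

open Matrix Module

/-- The rank property of a subgroup `G ≤ GL(n, K)`: for every singular `a ∈ M_n(K)` there is some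
`g ∈ G` with `rank (a g a) = rank a`. -/
def RankProperty {n : ℕ} {K : Type*} [Field K] (G : Subgroup (GL (Fin n) K)) : Prop :=
  ∀ a : Matrix (Fin n) (Fin n) K, a.det = 0 →
    ∃ g ∈ G, (a * (g : Matrix (Fin n) (Fin n) K) * a).rank = a.rank

variable {n : ℕ} {K : Type*} [Field K]

/-- The group of all `g` with `gᵀ J g = J`. -/
def isom (J : Matrix (Fin n) (Fin n) K) : Subgroup (GL (Fin n) K) where
  carrier := {g | (g : Matrix (Fin n) (Fin n) K)ᵀ * J * (g : Matrix (Fin n) (Fin n) K) = J}
  mul_mem' := by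
    intro g h hg hh
    simp only [Set.mem_ofPred_eq] at *
    rw [Units.val_mul, Matrix.transpose_mul]
    calc (h : Matrix (Fin n) (Fin n) K)ᵀ * (g : Matrix (Fin n) (Fin n) K)ᵀ * J * (g * h)
        = (h : Matrix (Fin n) (Fin n) K)ᵀ * ((g : Matrix (Fin n) (Fin n) K)ᵀ * J * g) * h := by
          simp only [Matrix.mul_assoc]
      _ = J := by rw [hg, hh]
  one_mem' := by simp
  inv_mem' := by
    intro g hg
    simp only [Set.mem_ofPred_eq] at *
    have h1 : (g : Matrix (Fin n) (Fin n) K) * (g⁻¹ : GL (Fin n) K) = 1 := by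
      rw [← Units.val_mul]; simp
    have h2 : ((g⁻¹ : GL (Fin n) K) : Matrix (Fin n) (Fin n) K)ᵀ * (g : Matrix (Fin n) (Fin n) K)ᵀ = 1 := by
      rw [← Matrix.transpose_mul, h1, Matrix.transpose_one]
    calc ((g⁻¹ : GL (Fin n) K) : Matrix (Fin n) (Fin n) K)ᵀ * J * (g⁻¹ : GL (Fin n) K)
        = ((g⁻¹ : GL (Fin n) K) : Matrix (Fin n) (Fin n) K)ᵀ *
          ((g : Matrix (Fin n) (Fin n) K)ᵀ * J * g) * (g⁻¹ : GL (Fin n) K) := by rw [hg]
      _ = (((g⁻¹ : GL (Fin n) K) : Matrix (Fin n) (Fin n) K)ᵀ * (g : Matrix (Fin n) (Fin n) K)ᵀ) * J *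
          ((g : Matrix (Fin n) (Fin n) K) * (g⁻¹ : GL (Fin n) K)) := by
          simp only [Matrix.mul_assoc]
      _ = J := by rw [h1, h2, Matrix.one_mul, Matrix.mul_one]

/-- `J` is alternating. -/
structure IsAlt (J : Matrix (Fin n) (Fin n) K) : Prop where
  skew : Jᵀ = -J
  zero : ∀ v : Fin n → K, v ⬝ᵥ (J *ᵥ v) = 0

section
variable {J : Matrix (Fin n) (Fin n) K} (hJ : IsAlt J) (v : Fin n → K)

include hJ in
lemma sq_zero : vecMulVec v (J *ᵥ v) * vecMulVec v (J *ᵥ v) = 0 := by
  rw [Matrix.vecMulVec_mul_vecMulVec]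
  have : (J *ᵥ v) ⬝ᵥ v = 0 := by rw [dotProduct_comm]; exact hJ.zero v
  rw [this]
  simp

/-- the transvection `x ↦ x + B(v, x) v`. -/
def transv : GL (Fin n) K where
  val := 1 + vecMulVec v (J *ᵥ v)
  inv := 1 - vecMulVec v (J *ᵥ v)
  val_inv := by
    rw [Matrix.add_mul, Matrix.mul_sub, Matrix.mul_sub, sq_zero hJ]; simp
  inv_val := by
    rw [Matrix.sub_mul, Matrix.mul_add, Matrix.mul_add, sq_zero hJ]; simp

lemma transv_mem : transv hJ v ∈ isom J := by
  change (1 + vecMulVec v (J *ᵥ v))ᵀ * J * (1 + vecMulVec v (J *ᵥ v)) = J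
  have e1 : (vecMulVec v (J *ᵥ v))ᵀ * J = - vecMulVec (J *ᵥ v) (J *ᵥ v) := by
    rw [Matrix.transpose_vecMulVec, Matrix.vecMulVec_mul]
    have : v ᵥ* J = - (J *ᵥ v) := by
      rw [← Matrix.mulVec_transpose, hJ.skew, Matrix.neg_mulVec]
    rw [this, Matrix.vecMulVec_neg]
  have e2 : J * vecMulVec v (J *ᵥ v) = vecMulVec (J *ᵥ v) (J *ᵥ v) := by
    rw [Matrix.mul_vecMulVec]
  have e3 : vecMulVec (J *ᵥ v) (J *ᵥ v) * vecMulVec v (J *ᵥ v) = 0 := by
    rw [Matrix.vecMulVec_mul_vecMulVec]
    have : (J *ᵥ v) ⬝ᵥ v = 0 := by rw [dotProduct_comm]; exact hJ.zero v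
    rw [this]; simp
  rw [Matrix.transpose_add, Matrix.transpose_one, Matrix.add_mul, Matrix.one_mul, e1,
    Matrix.add_mul, Matrix.mul_add, Matrix.mul_add, e2, Matrix.neg_mul, Matrix.neg_mul, e3]
  simp

lemma transv_apply (x : Fin n → K) :
    ((transv hJ v : GL (Fin n) K) : Matrix (Fin n) (Fin n) K) *ᵥ x = x + ((J *ᵥ v) ⬝ᵥ x) • v := by
  change (1 + vecMulVec v (J *ᵥ v)) *ᵥ x = _
  rw [Matrix.add_mulVec, Matrix.one_mulVec, Matrix.vecMulVec_mulVec]
  simp
end

lemma exists_notin {V : Type*} [AddCommGroup V] [Module K V] (P Q : Submodule K V)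
    (hP : P ≠ ⊤) (hQ : Q ≠ ⊤) : ∃ v, v ∉ P ∧ v ∉ Q := by
  obtain ⟨x, hx⟩ : ∃ x, x ∉ P := by
    by_contra h; push Not at h; exact hP (eq_top_iff.2 fun x _ => h x)
  obtain ⟨y, hy⟩ : ∃ y, y ∉ Q := by
    by_contra h; push Not at h; exact hQ (eq_top_iff.2 fun x _ => h x)
  by_cases h1 : x ∈ Q
  · by_cases h2 : y ∈ P
    · exact ⟨x + y, fun h => hx ((P.add_mem_iff_left h2).1 h), fun h => hy ((Q.add_mem_iff_right h1).1 h)⟩
    · exact ⟨y, h2, hy⟩
  · exact ⟨x, hx, h1⟩

lemma move {J : Matrix (Fin n) (Fin n) K} (hJ : IsAlt J) (hd : J.det ≠ 0)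
    (U : Submodule K (Fin n → K)) :
    ∀ d : ℕ, ∀ W : Submodule K (Fin n → K), finrank K W + finrank K U ≤ n →
      finrank K (W ⊓ U : Submodule K (Fin n → K)) = d →
      ∃ g ∈ isom J, W.map (Matrix.toLin' (g : Matrix (Fin n) (Fin n) K)) ⊓ U = ⊥ := by
  intro d
  induction d using Nat.strong_induction_on with
  | _ d ih =>
    intro W hW hd'
    rcases Nat.eq_zero_or_pos d with h0 | hpos
    · refine ⟨1, one_mem _, ?_⟩
      rw [h0] at hd'
      have := Submodule.finrank_eq_zero.1 hd'
      simpa using this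
    · have hne : (W ⊓ U : Submodule K (Fin n → K)) ≠ ⊥ := by
        intro h
        rw [h, finrank_bot] at hd'
        omega
      obtain ⟨x, hx, hx0⟩ := (Submodule.ne_bot_iff _).1 hne
      have h1 : W ⊔ U ≠ ⊤ := by
        intro h
        have := Submodule.finrank_sup_add_finrank_inf_eq W U
        rw [h, hd', finrank_top] at this
        simp at this
        omega
      -- the hyperplane `B(x, ·) = 0`
      let f : (Fin n → K) →ₗ[K] K :=
        (LinearMap.mk₂ K (fun p q : Fin n → K => p ⬝ᵥ (J *ᵥ q))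
          (by intros; simp [add_dotProduct]) (by intros; simp)
          (by intros; simp [Matrix.mulVec_add, dotProduct_add])
          (by intros; simp [Matrix.mulVec_smul, dotProduct_smul])) x
      have hf : ∀ v, f v = x ⬝ᵥ (J *ᵥ v) := fun v => rfl
      have h2 : LinearMap.ker f ≠ ⊤ := by
        intro h
        apply hx0
        have h3 : ∀ v, x ⬝ᵥ (J *ᵥ v) = 0 := by
          intro v
          rw [← hf v]
          exact LinearMap.mem_ker.1 (h ▸ Submodule.mem_top)
        have h4 : x ᵥ* J = 0 := by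
          funext i
          have := h3 (Pi.single i 1)
          rw [Matrix.dotProduct_mulVec] at this
          simpa using this
        have h5 : x ᵥ* (J * J⁻¹) = 0 := by rw [← Matrix.vecMul_vecMul, h4, Matrix.zero_vecMul]
        rw [Matrix.mul_nonsing_inv _ (isUnit_iff_ne_zero.2 hd), Matrix.vecMul_one] at h5
        exact h5
      obtain ⟨v, hv1, hv2⟩ := exists_notin _ _ h1 h2
      have hv2' : x ⬝ᵥ (J *ᵥ v) ≠ 0 := fun h => hv2 (LinearMap.mem_ker.2 h)
      set T := transv hJ v with hT
      set L := Matrix.toLin' (T : Matrix (Fin n) (Fin n) K) with hL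
      have hLa : ∀ y, L y = y + ((J *ᵥ v) ⬝ᵥ y) • v := by
        intro y
        rw [hL, Matrix.toLin'_apply, hT, transv_apply]
      have hinj : Function.Injective L := by
        have h6 : ∀ y, Matrix.toLin' ((T⁻¹ : GL (Fin n) K) : Matrix (Fin n) (Fin n) K) (L y) = y := by
          intro y
          rw [hL, ← LinearMap.comp_apply, ← Matrix.toLin'_mul, ← Units.val_mul]
          simp
        exact Function.LeftInverse.injective h6
      have hsub : W.map L ⊓ U < W ⊓ U := by
        rw [lt_iff_le_and_ne]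
        have hle : ∀ y ∈ W.map L ⊓ U, y ∈ W ⊓ U ∧ (J *ᵥ v) ⬝ᵥ y = 0 := by
          rintro y ⟨⟨w, hw, rfl⟩, hyU⟩
          have h7 : (J *ᵥ v) ⬝ᵥ w = 0 := by
            by_contra hne'
            apply hv1
            rw [hLa] at hyU
            have h8 : ((J *ᵥ v) ⬝ᵥ w) • v ∈ W ⊔ U := by
              have : ((J *ᵥ v) ⬝ᵥ w) • v = (w + ((J *ᵥ v) ⬝ᵥ w) • v) - w := by abel
              rw [this]
              exact Submodule.sub_mem _ (Submodule.mem_sup_right hyU) (Submodule.mem_sup_left hw)
            have h9 := (W ⊔ U).smul_mem ((J *ᵥ v) ⬝ᵥ w)⁻¹ h8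
            rwa [smul_smul, inv_mul_cancel₀ hne', one_smul] at h9
          rw [hLa, h7, zero_smul, add_zero] at hyU
          rw [hLa, h7, zero_smul, add_zero]
          exact ⟨⟨hw, hyU⟩, h7⟩
        refine ⟨fun y hy => (hle y hy).1, fun heq => ?_⟩
        have := (hle x (heq ▸ hx)).2
        rw [dotProduct_comm] at this
        exact hv2' this
      have hlt := Submodule.finrank_lt_finrank_of_lt hsub
      rw [hd'] at hlt
      have hW' : finrank K (W.map L) + finrank K U ≤ n := by
        have := Submodule.finrank_map_le L W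
        omega
      obtain ⟨g, hg, hg'⟩ := ih _ hlt (W.map L) hW' rfl
      refine ⟨g * T, mul_mem hg (transv_mem hJ v), ?_⟩
      rw [Units.val_mul, Matrix.toLin'_mul, Submodule.map_comp]
      exact hg'

/-- If `J` is alternating and invertible, its isometry group has the rank property. -/
lemma rankProperty_isom {J : Matrix (Fin n) (Fin n) K} (hJ : IsAlt J) (hd : J.det ≠ 0) :
    RankProperty (isom J) := by
  intro a _
  set A := a.mulVecLin with hA
  have h1 : finrank K (LinearMap.range A) + finrank K (LinearMap.ker A) ≤ n := by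
    rw [LinearMap.finrank_range_add_finrank_ker]; simp
  obtain ⟨g, hg, hg'⟩ := move hJ hd (LinearMap.ker A) _ (LinearMap.range A) h1 rfl
  refine ⟨g, hg, ?_⟩
  set L := Matrix.toLin' (g : Matrix (Fin n) (Fin n) K) with hL
  set S := (LinearMap.range A).map L with hS
  have hinj : Function.Injective L := by
    have h6 : ∀ y, Matrix.toLin' ((g⁻¹ : GL (Fin n) K) : Matrix (Fin n) (Fin n) K) (L y) = y := by
      intro y
      rw [hL, ← LinearMap.comp_apply, ← Matrix.toLin'_mul, ← Units.val_mul]
      simp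
    exact Function.LeftInverse.injective h6
  have h2 : LinearMap.range ((a * (g : Matrix (Fin n) (Fin n) K) * a).mulVecLin) = S.map A := by
    rw [Matrix.mulVecLin_mul, Matrix.mulVecLin_mul, LinearMap.range_comp, Submodule.map_comp]
    rfl
  have h3 : finrank K S = finrank K (LinearMap.range A) := by
    have := LinearEquiv.finrank_eq (Submodule.equivMapOfInjective L hinj (LinearMap.range A))
    exact this.symm
  have h4 : finrank K (S.map A) = finrank K S := by
    have h5 := LinearMap.finrank_range_add_finrank_ker (A.domRestrict S)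
    rw [LinearMap.range_domRestrict] at h5
    have h6 : LinearMap.ker (A.domRestrict S) = ⊥ := by
      rw [LinearMap.ker_eq_bot']
      rintro ⟨m, hm⟩ h7
      have h8 : m ∈ S ⊓ LinearMap.ker A := ⟨hm, LinearMap.mem_ker.2 h7⟩
      rw [hg'] at h8
      exact Subtype.ext ((Submodule.mem_bot K).1 h8)
    rw [h6, finrank_bot, add_zero] at h5
    exact h5
  rw [Matrix.rank, h2, h4, h3, Matrix.rank]

/-- The standard alternating matrix: `J i (rev i) = 1` for `i < rev i`, and `-1` for `i > rev i`. -/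
def stdJ (n : ℕ) (K : Type*) [Field K] : Matrix (Fin n) (Fin n) K :=
  fun i j => if j = i.rev then (if i < j then 1 else -1) else 0

lemma stdJ_mulVec (v : Fin n → K) (i : Fin n) :
    (stdJ n K *ᵥ v) i = (if i < i.rev then 1 else -1) * v i.rev := by
  simp only [Matrix.mulVec, dotProduct, stdJ]
  rw [Finset.sum_eq_single i.rev]
  · simp
  · intro b _ hb; simp [hb]
  · simp

lemma stdJ_skew (hn : Even n) : (stdJ n K)ᵀ = - stdJ n K := by
  ext i j
  simp only [Matrix.transpose_apply, stdJ, Matrix.neg_apply]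
  by_cases h : j = i.rev
  · have h' : i = j.rev := by rw [h]; simp
    rw [if_pos h, if_pos h']
    have hne : i ≠ j := by
      rintro rfl
      have := congrArg Fin.val h
      rw [Fin.val_rev] at this
      obtain ⟨k, hk⟩ := hn
      have := i.isLt
      omega
    rcases lt_or_gt_of_ne hne with h1 | h1
    · rw [if_neg (not_lt.2 h1.le), if_pos h1]
    · rw [if_pos h1, if_neg (not_lt.2 h1.le)]; simp
  · have h' : ¬ i = j.rev := fun h' => h (by rw [h']; simp)
    rw [if_neg h, if_neg h']; simp

lemma stdJ_alt (hn : Even n) : IsAlt (stdJ n K) where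
  skew := stdJ_skew hn
  zero := by
    intro v
    simp only [dotProduct, stdJ_mulVec]
    apply Finset.sum_involution (fun (i : Fin n) _ => i.rev)
    · intro i _
      have hne : i ≠ i.rev := by
        intro h
        have := congrArg Fin.val h
        rw [Fin.val_rev] at this
        obtain ⟨k, hk⟩ := hn
        have := i.isLt
        omega
      rw [Fin.rev_rev]
      rcases lt_or_gt_of_ne hne with h1 | h1
      · rw [if_pos h1, if_neg (not_lt.2 h1.le)]; ring
      · rw [if_neg (not_lt.2 h1.le), if_pos h1]; ring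
    · intro i _ _ h
      have := congrArg Fin.val h
      rw [Fin.val_rev] at this
      obtain ⟨k, hk⟩ := hn
      have := i.isLt
      omega
    · intro i _; simp
    · intro i _; simp

lemma stdJ_sq (hn : Even n) : stdJ n K * stdJ n K = -1 := by
  ext i j
  have hne : i ≠ i.rev := by
    intro h
    have := congrArg Fin.val h
    rw [Fin.val_rev] at this
    obtain ⟨k, hk⟩ := hn
    have := i.isLt
    omega
  rw [Matrix.mul_apply, Finset.sum_eq_single i.rev]
  · simp only [stdJ, Fin.rev_rev, if_true]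
    by_cases hij : j = i
    · subst hij
      rw [if_pos rfl]
      rcases lt_or_gt_of_ne hne with h1 | h1
      · rw [if_pos h1, if_neg (not_lt.2 h1.le)]; simp
      · rw [if_neg (not_lt.2 h1.le), if_pos h1]; simp
    · rw [if_neg hij]
      simp [Ne.symm hij]
  · intro b _ hb; simp [stdJ, hb]
  · simp

lemma stdJ_det (hn : Even n) : (stdJ n K).det ≠ 0 := by
  intro h
  have h1 := congrArg Matrix.det (stdJ_sq (K := K) hn)
  rw [Matrix.det_mul, h, Matrix.det_neg, Matrix.det_one, mul_zero, mul_one] at h1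
  exact pow_ne_zero _ (neg_ne_zero.2 one_ne_zero) h1.symm

/-- For every field `K` (in particular for every finite field `GF(q)`) and every even `n ≥ 4`
there is a subgroup of `GL(n, K)` (the symplectic group) with the rank property that does not
contain `SL(n, K)`. -/
theorem result (K : Type*) [Field K] (n : ℕ) (hn : Even n) (h4 : 4 ≤ n) :
    ∃ G : Subgroup (GL (Fin n) K), RankProperty G ∧
      ¬ ∀ s : Matrix.SpecialLinearGroup (Fin n) K, (s : GL (Fin n) K) ∈ G := by
  refine ⟨isom (stdJ n K), rankProperty_isom (stdJ_alt hn) (stdJ_det hn), fun h => ?_⟩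
  let i0 : Fin n := ⟨0, by omega⟩
  let i1 : Fin n := ⟨1, by omega⟩
  let il : Fin n := ⟨n - 1, by omega⟩
  have h01 : i0 ≠ i1 := by simp [i0, i1]
  have h1l : i1 ≠ il := by simp [i1, il]; omega
  have h0l : i0 ≠ il := by simp [i0, il]; omega
  have hdet : (Matrix.transvection i0 i1 (1 : K)).det = 1 := Matrix.det_transvection_of_ne i0 i1 h01 1
  have h5 : (Matrix.transvection i0 i1 (1 : K))ᵀ * stdJ n K * Matrix.transvection i0 i1 (1 : K)
      = stdJ n K := h ⟨Matrix.transvection i0 i1 (1 : K), hdet⟩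
  have h6 := congrFun (congrFun h5 i1) il
  rw [Matrix.transvection, Matrix.transpose_add, Matrix.transpose_one, Matrix.transpose_single,
    Matrix.add_mul, Matrix.one_mul, Matrix.mul_add, Matrix.mul_one, Matrix.add_apply,
    Matrix.add_apply, Matrix.single_mul_apply_same, Matrix.mul_single_apply_of_ne _ _ _ _ _ h1l.symm] at h6
  have h7 : stdJ n K i0 il = 1 := by
    have e1 : il = i0.rev := by apply Fin.ext; rw [Fin.val_rev]
    have e2 : i0 < il := by rw [Fin.lt_def]; simp [i0, il]; omega
    simp only [stdJ]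
    rw [if_pos e1, if_pos e2]
  rw [h7] at h6
  simp at h6

end Pool.Agent.Results.MP_6598fd_al.Symplectic
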